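import Mathlib
import Pool.Agent.H.MP_3ce754_lc.B

set_option autoImplicit false

namespace Pool.Agent.Results.MP_af84fe_lc.No

open Set Filter Topology Function MeasureTheory Pool.Agent.H.MP_3ce754_lc

/-- the subset of the naturals with characteristic function `x` -/
def S (x : ℕ → Bool) : Set ℕ := {n | x n = true}

theorem cont (B : Set ℕ) (k : ℕ) : Continuous fun y : ℕ → Bool => (pc (S y ∩ B) k).card := by
  classical
  simp only [pc, Finset.card_filter]
  refine continuous_finsetSum _ fun m _ => ?_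
  convert (continuous_of_discreteTopology (f := fun b : Bool =>
    if b = true ∧ m ∈ B then 1 else 0)).comp (continuous_apply (A := fun _ : ℕ => Bool) m) using 2
  simp [S]

theorem result (𝒜 : Set (ℕ → Bool)) (h1 : AnalyticSet 𝒜) (h2 : ∀ x ∈ 𝒜, ¬ Z0 (S x))
    (h3 : ∀ x ∈ 𝒜, ∀ y ∈ 𝒜, x ≠ y → Z0 (S x ∩ S y))
    (h4 : ∀ X : Set ℕ, ¬ Z0 X → ∃ x ∈ 𝒜, ¬ Z0 (X ∩ S x)) : 𝒜.Countable := by
  classical
  by_contra hc
  obtain ⟨r0, hr⟩ : ∃ r0, {x | x ∈ 𝒜 ∧
      {k | 2 ^ k ≤ (r0 + 1) * (pc (S x) k).card}.Infinite}.Infinite := by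
    by_contra h
    push Not at h
    refine hc ((countable_iUnion fun r => (h r).countable).mono fun x hx => ?_)
    obtain ⟨r, hr⟩ := not_forall.1 (mt z0_iff.2 (h2 x hx))
    exact mem_iUnion.2 ⟨r, hx, hr⟩
  rw [AnalyticSet] at h1
  rcases h1 with rfl | ⟨g, hg, rfl⟩
  · exact hc countable_empty
  let a := hr.natEmbedding
  let κ : ℕ → ℕ → ℕ := fun i => Nat.nth fun k => 2 ^ k ≤ (r0 + 1) * (pc (S (a i)) k).card
  have k1 : ∀ i, Tendsto (κ i) atTop atTop := fun i => (Nat.nth_strictMono (a i).2.2).tendsto_atTop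
  let G : (ℕ → ℕ) → ℕ → Bool := fun x m => decide (2 ^ κ m.unpair.1 m.unpair.2 ≤ (x 0 + 1) *
    (pc (S (g fun n => x (n + 1)) ∩ S (a m.unpair.1)) (κ m.unpair.1 m.unpair.2)).card)
  have g1 : ∀ x i j, G x (Nat.pair i j) = true ↔ 2 ^ κ i j ≤ (x 0 + 1) *
    (pc (S (g fun n => x (n + 1)) ∩ S (a i)) (κ i j)).card := fun x i j => by simp [G]
  have hG : Continuous G := continuous_pi fun m => (continuous_of_discreteTopology
    (f := fun v : ℕ => decide (2 ^ κ m.unpair.1 m.unpair.2 ≤ v))).comp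
      (Continuous.mul (f := fun x : ℕ → ℕ => x 0 + 1) (by fun_prop) ((cont _ _).comp
        (hg.comp (f := fun (x : ℕ → ℕ) n => x (n + 1)) (by fun_prop))))
  obtain ⟨U, hU⟩ := Ultrafilter.exists_le (atTop : Filter ℕ)
  have g2 : ∀ x, ∀ᶠ i in U, ∀ᶠ j in U, G x (Nat.pair i j) = false := fun x => by
    refine Eventually.filter_mono hU ?_
    have : {i | (a i).1 = g fun n => x (n + 1)}.Finite := Set.Subsingleton.finite fun i hi j hj =>
      a.injective (Subtype.ext (hi.trans hj.symm))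
    refine Eventually.mono (Nat.cofinite_eq_atTop ▸ this.eventually_cofinite_notMem) fun i hi =>
      Eventually.filter_mono hU ?_
    obtain ⟨b, hb⟩ := (z0_iff.1 (h3 _ ⟨_, rfl⟩ _ (a i).2.1 (Ne.symm hi)) (x 0)).bddAbove
    exact ((k1 i).eventually_gt_atTop b).mono fun j hj => Bool.eq_false_iff.2 fun h =>
      hj.not_ge (hb ((g1 x i j).1 h))
  obtain ⟨T, t1, t2⟩ : Bad U G Nat.pair [] [] := by
    by_contra h
    obtain ⟨-, -, σ, -, -, s1, -, s2⟩ := pick hG ⟨_, h⟩ (N := fun _ _ => True) (by simp)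
    obtain ⟨x0, hx0⟩ := Pool.Agent.H.MP_ef395a_gt.ex1 σ
    obtain ⟨τ, a1, a2⟩ := many hG s2 g2 hU (2 * (x0 0 + 1))
    obtain ⟨x, x1, x2⟩ := multi hG (κ := κ) (fun i m => hU ((k1 i).eventually_gt_atTop m)) τ
      fun b => (a1 b).2
    have x3 : ∀ b, x b 0 = x0 0 := fun b =>
      PiNat.res_eq_res.1 ((Ex.mono (a1 b).1 (x1 b).1).trans hx0.symm) s1
    have x4 : ∀ b c, b ≠ c → (g fun n => x b (n + 1)) ≠ g fun n => x c (n + 1) := fun b c h e =>
      a2 b c h _ _ (x1 b).1 (x1 c).1 (by simp only [G, e, x3])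
    obtain ⟨m, hm⟩ := (finite_iUnion fun p : {p : Fin _ × Fin _ // p.1 ≠ p.2} => z0_iff.1
      (h3 _ ⟨_, rfl⟩ _ ⟨_, rfl⟩ (x4 _ _ p.2)) (2 * (x0 0 + 1) * (2 * (x0 0 + 1)))).bddAbove
    obtain ⟨i, j, j1, j2⟩ := x2 m
    have h5 := bonf (fun b => pc (S (g fun n => x b (n + 1)) ∩ S (a i)) (κ i j))
      ((2 ^ κ i j - 1) / (2 * (x0 0 + 1) * (2 * (x0 0 + 1)) + 1)) (fun b c h => by
        have := mt (fun h' => hm (mem_iUnion.2 ⟨⟨(b, c), h⟩, h'⟩)) j1.not_ge
        rw [mem_ofPred_eq, not_le] at this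
        refine (Nat.le_div_iff_mul_le (by omega)).2 (Nat.le_sub_one_of_lt (lt_of_le_of_lt ?_ this))
        rw [mul_comm]
        refine Nat.mul_le_mul_left _ (Finset.card_le_card fun n hn => ?_)
        simp only [pc, Finset.mem_inter, Finset.mem_filter] at hn ⊢
        exact ⟨hn.1.1, hn.1.2.1, hn.2.2.1⟩) Finset.univ
    have h6 : (Finset.univ.biUnion fun b => pc (S (g fun n => x b (n + 1)) ∩ S (a i)) (κ i j)).card
        ≤ 2 ^ κ i j := (Finset.card_le_card (Finset.biUnion_subset.2 fun _ _ _ h => by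
      simp only [pc, Finset.mem_filter] at h
      exact h.1)).trans (by rw [Nat.card_Ico, pow_succ]; omega)
    have h7 := Finset.card_nsmul_le_sum Finset.univ _ _ fun b _ => x3 b ▸ (g1 _ _ _).1 (j2 b)
    have h8 := Nat.div_mul_le_self (2 ^ κ i j - 1) (2 * (x0 0 + 1) * (2 * (x0 0 + 1)) + 1)
    have h9 := Nat.sub_add_cancel (Nat.two_pow_pos (κ i j))
    rw [← Finset.mul_sum] at h7
    simp only [Finset.card_univ, Fintype.card_fin, smul_eq_mul] at h5 h7
    set s := ∑ b, (pc (S (g fun n => x b (n + 1)) ∩ S (a i)) (κ i j)).card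
    have : 2 * 2 ^ κ i j ≤ s := Nat.le_of_mul_le_mul_left (by nlinarith) (Nat.succ_pos (x0 0))
    nlinarith [Nat.zero_le ((2 ^ κ i j - 1) / (2 * (x0 0 + 1) * (2 * (x0 0 + 1)) + 1))]
  obtain ⟨V, -, v2, v3⟩ := cube hU t1 univ_mem
  have z1 := Nat.nth_strictMono v2
  have z2 := t2 _ (v3 _ z1 (Nat.nth_mem_of_infinite v2))
  generalize Nat.nth V = z at z1 z2
  let k : ℕ → ℕ := fun n => κ (z n) (z (n + 1))
  let w : Set ℕ := {m | Nat.log 2 m ∈ range k ∧ m ∈ S (a (z (invFun k (Nat.log 2 m))))}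
  have w1 : ∀ B l, pc (w ∩ B) l = if l ∈ range k then pc (B ∩ S (a (z (invFun k l)))) l else ∅ :=
    fun B l => by
      ext m
      simp only [pc, Finset.mem_filter, Finset.mem_Ico, mem_inter_iff, w, mem_ofPred_eq]
      by_cases h : 2 ^ l ≤ m ∧ m < 2 ^ (l + 1)
      · rw [Nat.log_eq_of_pow_le_of_lt_pow h.1 h.2]
        split_ifs with h' <;> simp [h, h', and_comm]
      · split_ifs <;> simp [h]
  obtain ⟨_, ⟨y, rfl⟩, hy⟩ := h4 w fun h => by
    refine infinite_of_forall_exists_gt (s := range k) (fun n => ⟨_, ⟨n, rfl⟩,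
      (z1.id_le (n + 1)).trans ((Nat.nth_strictMono (a _).2.2).id_le _)⟩)
      ((z0_iff.1 h r0).subset fun l hl => ?_)
    have := w1 Set.univ l
    rw [inter_univ, univ_inter, if_pos hl] at this
    rw [mem_ofPred_eq, this]
    have h5 := Nat.nth_mem_of_infinite (a (z (invFun k l))).2.2 (z (invFun k l + 1))
    have h6 : k (invFun k l) = l := invFun_eq hl
    simp only [k, κ] at h6
    rwa [h6] at h5
  refine hy (z0_iff.2 fun r => ((z2 (fun n => Nat.casesOn n r y) rfl).image k).subset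
    fun l hl => ?_)
  rw [mem_ofPred_eq, w1] at hl
  split_ifs at hl with h
  · refine ⟨invFun k l, (g1 _ _ _).2 ?_, invFun_eq h⟩
    rwa [show κ (z (invFun k l)) (z (invFun k l + 1)) = l from invFun_eq (f := k) h]
  · simp at hl

end Pool.Agent.Results.MP_af84fe_lc.No
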